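import Pool.Agent.H71.CQ.Basic

/-!
# Rows RBC, RBR, RBN: conditions of the relabelling between infinite sorts
-/

set_option autoImplicit false

open Set

namespace Pool.Agent.H6.CQ

open Pool.Agent.H71.CQ

variable {L : Type} {N : NF L} {e : ℕ → ℕ → L} {p q : L} {a : ℕ → ℕ → Option L}

theorem le_refl' (a : ℕ → ℕ → Option L) : Le a a := fun _ _ _ h => h

theorem Le.trans' {a b c : ℕ → ℕ → Option L} (h : Le a b) (h' : Le b c) : Le a c :=
  fun x y l hl => h' x y l (h x y l hl)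

/-- the labels used by a condition are finitely many -/
theorem used_fin (ha : Cnd N e p q a) : {l | ∃ x y, a x y = some l}.Finite := by
  have h1 : ((fun z : ℕ × ℕ => a z.1 z.2) '' {z : ℕ × ℕ | a z.1 z.2 ≠ none}).Finite :=
    ha.fin.image _
  have h2 : (some ⁻¹' ((fun z : ℕ × ℕ => a z.1 z.2) '' {z : ℕ × ℕ | a z.1 z.2 ≠ none})).Finite :=
    h1.preimage (Option.some_injective L).injOn
  refine h2.subset ?_
  rintro l ⟨x, y, h⟩
  exact ⟨(x, y), by simp [h], h⟩

/-- the touched rows are finitely many -/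
theorem touched_fin (ha : Cnd N e p q a) : {z | ∃ w, a z w ≠ none}.Finite := by
  have h1 : (Prod.fst '' {z : ℕ × ℕ | a z.1 z.2 ≠ none}).Finite := ha.fin.image _
  refine h1.subset ?_
  rintro z ⟨w, h⟩
  exact ⟨(z, w), h, rfl⟩

theorem none_symm (ha : Cnd N e p q a) {z : ℕ} (hz : ∀ w, a z w = none) (w : ℕ) :
    a w z = none := by
  by_contra h
  obtain ⟨l, hl⟩ := Option.ne_none_iff_exists'.1 h
  have := ha.rev _ _ _ hl
  rw [hz w] at this
  cases this

/-- room in a row without the label -/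
theorem room (hDEG : T_DEG) (hN : N.Sep) (he : Mem N e) {x x1 y1 : ℕ} {l : L}
    (h1 : e x1 x1 = e x x) (h2 : e x1 y1 = l) (hu : ∀ z, a x z ≠ some l) (hl : ¬ Op N l) :
    {z | a x z = some l}.encard < {z | e x z = l}.encard := by
  have h3 : {z | a x z = some l} = ∅ := by
    rw [Set.eq_empty_iff_forall_notMem]
    exact fun z hz => hu z hz
  have h4 := (hDEG L N hN ℕ ℕ e e he he x1 x h1 l hl).2
  rw [h3, Set.encard_empty, ← h4, Set.encard_pos]
  exact ⟨y1, h2⟩

/-- an unused label can be added -/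
theorem add_unused (hDEG : T_DEG) (hRBA : T_RBA) (hN : N.Sep) (he : Mem N e)
    (ha : Cnd N e p q a) {x y x1 y1 : ℕ} (hc : Cell e p q x y) (h0 : a x y = none)
    (hne : x1 ≠ y1) (h1 : e x1 x1 = e x x) (h2 : e y1 y1 = e y y)
    (hu : ∀ z w, a z w ≠ some (e x1 y1)) (hu' : ∀ z w, a z w ≠ some (N.rev (e x1 y1))) :
    ∃ b, Cnd N e p q b ∧ Le a b ∧ b x y = some (e x1 y1) ∧
      ∀ z w, b z w ≠ none → a z w ≠ none ∨ (z = x ∧ w = y) ∨ (z = y ∧ w = x) :=
  hRBA L N hN e he p q a ha x y hc h0 _ ⟨x1, y1, hne, h1, h2, rfl⟩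
    (room hDEG hN he h1 rfl (hu x)) (room hDEG hN he h2 (he.rev x1 y1) (hu' y))

/-- a label with room in the row of `x` can be added at a new point -/
theorem add_new (hDEG : T_DEG) (hRBA : T_RBA) (hN : N.Sep) (he : Mem N e)
    (hp : (Srt e p).Infinite) (hq : (Srt e q).Infinite) (ha : Cnd N e p q a) {x y : ℕ}
    (hc : Cell e p q x y)
    (hr : ¬ Op N (e x y) → {z | a x z = some (e x y)}.encard < {z | e x z = e x y}.encard)
    (F : Set ℕ) (hF : F.Finite) :
    ∃ b z, Cnd N e p q b ∧ Le a b ∧ z ∉ F ∧ (∀ w, a z w = none) ∧ (∀ w, a w z = none) ∧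
      z ≠ x ∧ e z z = e y y ∧ b x z = some (e x y) ∧
      ∀ v w, b v w ≠ none → a v w ≠ none ∨ (v = x ∧ w = z) ∨ (v = z ∧ w = x) := by
  have hinf : (Srt e (e y y)).Infinite := by
    rcases hc.2 with h | h
    · rw [h.2]; exact hq
    · rw [h.2]; exact hp
  obtain ⟨z, hz, hz'⟩ := (hinf.sdiff ((hF.union (touched_fin ha)).union (finite_singleton x))).nonempty
  have hzF : z ∉ F := fun h => hz' (Or.inl (Or.inl h))
  have hzt : ∀ w, a z w = none := fun w => by
    by_contra h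
    exact hz' (Or.inl (Or.inr ⟨w, h⟩))
  have hzx : z ≠ x := fun h => hz' (Or.inr h)
  have hzy : e z z = e y y := hz
  have hc' : Cell e p q x z := by
    refine ⟨hzx.symm, ?_⟩
    rw [hzy]
    exact hc.2
  have hsym := none_symm ha hzt
  obtain ⟨b, h1, h2, h3, h4⟩ := hRBA L N hN e he p q a ha x z hc' (hsym x) (e x y)
    ⟨x, y, hc.1, rfl, hzy.symm, rfl⟩ hr
    (room hDEG hN he hzy.symm (he.rev x y) (fun w => by rw [hzt w]; exact fun h => by cases h))
  exact ⟨b, z, h1, h2, hzF, hzt, hsym, hzx, hzy, h3, h4⟩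

/-- RBC. Every pair can be labelled. -/
theorem pf_RBC (hDEG : T_DEG) (hRBA : T_RBA) : T_RBC := by
  intro L N hN e he p q lam hlam a ha x y hc
  by_cases h0 : a x y = none
  swap
  · obtain ⟨l, hl⟩ := Option.ne_none_iff_exists'.1 h0
    exact ⟨a, l, ha, le_refl' a, hl⟩
  obtain ⟨hinj, hl⟩ := hlam
  -- an index with unused labels
  have hrr : ∀ i, N.rev (N.rev (lam i)) = lam i := fun i => by
    obtain ⟨_, x1, y1, _, _, _, h⟩ := hl i
    rw [← h]
    exact he.toCoh.rev_rev x1 y1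
  have hinj' : Function.Injective fun i => N.rev (lam i) := fun i j h => by
    apply hinj
    rw [← hrr i, ← hrr j]
    exact congrArg N.rev h
  have f1 : {i | ∃ z w, a z w = some (lam i)}.Finite :=
    Set.Finite.preimage (f := lam) hinj.injOn (used_fin ha)
  have f2 : {i | ∃ z w, a z w = some (N.rev (lam i))}.Finite :=
    Set.Finite.preimage (f := fun i => N.rev (lam i)) hinj'.injOn (used_fin ha)
  obtain ⟨i, hi⟩ := (f1.union f2).infinite_compl.nonempty
  have u1 : ∀ z w, a z w ≠ some (lam i) := fun z w h => hi (Or.inl ⟨z, w, h⟩)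
  have u2 : ∀ z w, a z w ≠ some (N.rev (lam i)) := fun z w h => hi (Or.inr ⟨z, w, h⟩)
  obtain ⟨hcl, x1, y1, hne, k1, k2, k3⟩ := hl i
  rcases hc.2 with ⟨c1, c2⟩ | ⟨c1, c2⟩
  · obtain ⟨b, h1, h2, h3, _⟩ := add_unused hDEG hRBA hN he ha hc h0 hne (k1.trans c1.symm)
      (k2.trans c2.symm) (by rw [k3]; exact u1) (by rw [k3]; exact u2)
    exact ⟨b, _, h1, h2, h3⟩
  · have k4 : e y1 x1 = N.rev (lam i) := by rw [he.rev x1 y1, k3]
    obtain ⟨b, h1, h2, h3, _⟩ := add_unused hDEG hRBA hN he ha hc h0 hne.symm (k2.trans c1.symm)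
      (k1.trans c2.symm) (by rw [k4]; exact u2) (by rw [k4, hrr]; exact u1)
    exact ⟨b, _, h1, h2, h3⟩

end Pool.Agent.H6.CQ
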