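import Pool.Agent.H6.CQ.RBC

/-!
# Rows RBR, RBN: conditions of the relabelling between infinite sorts
-/

set_option autoImplicit false

open Set

namespace Pool.Agent.H6.CQ

open Pool.Agent.H71.CQ

variable {L : Type} {N : NF L} {e : ℕ → ℕ → L} {p q : L} {a : ℕ → ℕ → Option L}

/-- RBR. Every row can be completed. -/
theorem pf_RBR (hDEG : T_DEG) (hRBA : T_RBA) : T_RBR := by
  intro L N hN e he p q hp hq a ha x y hc hcl
  have hfin : {z | e x z = e x y}.Finite := (hDEG L N hN ℕ ℕ e e he he x x rfl _ hcl).1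
  -- induction on the number of missing labels
  have key : ∀ k : ℕ, ∀ a, Cnd N e p q a →
      {z | e x z = e x y}.ncard ≤ {z | a x z = some (e x y)}.ncard + k →
      ∃ b, Cnd N e p q b ∧ Le a b ∧ {z | b x z = some (e x y)}.encard = {z | e x z = e x y}.encard := by
    intro k
    induction k with
    | zero =>
      intro a ha hk
      have hle := ha.cap x _ hcl
      have hfa : {z | a x z = some (e x y)}.Finite :=
        Set.finite_of_encard_le_coe (hle.trans hfin.cast_ncard_eq.symm.le)
      refine ⟨a, ha, le_refl' a, le_antisymm hle ?_⟩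
      rw [← hfin.cast_ncard_eq, ← hfa.cast_ncard_eq]
      exact_mod_cast hk
    | succ k ih =>
      intro a ha hk
      have hle := ha.cap x _ hcl
      have hfa : {z | a x z = some (e x y)}.Finite :=
        Set.finite_of_encard_le_coe (hle.trans hfin.cast_ncard_eq.symm.le)
      rcases eq_or_lt_of_le hle with h | h
      · exact ⟨a, ha, le_refl' a, h⟩
      · obtain ⟨b, z, h1, h2, _, h4, h5, h6, h7, h8, h9⟩ :=
          add_new hDEG hRBA hN he hp hq ha hc (fun _ => h) ∅ finite_empty
        have hfb : {z | b x z = some (e x y)}.Finite :=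
          Set.finite_of_encard_le_coe ((h1.cap x _ hcl).trans hfin.cast_ncard_eq.symm.le)
        have hlt : {z | a x z = some (e x y)}.ncard < {z | b x z = some (e x y)}.ncard := by
          refine Set.ncard_lt_ncard ?_ hfb
          refine ⟨fun w hw => h2 _ _ _ hw, fun hs => ?_⟩
          have h10 : a x z = some (e x y) := hs h8
          rw [h5 x] at h10
          cases h10
        obtain ⟨b', k1, k2, k3⟩ := ih b h1 (by omega)
        exact ⟨b', k1, Le.trans' h2 k2, k3⟩
  exact key _ a ha (Nat.le_add_left _ _)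

/-- RBN. Infinitely many neighbours in `B n`. -/
theorem pf_RBN (hDEG : T_DEG) (hRBA : T_RBA) : T_RBN := by
  intro L N hN e he p q hp hq a ha x n hinf m
  have main : ∃ y, Cell e p q x y ∧ e x y ∈ N.B n ∧ (¬ Op N (e x y) →
      {z | a x z = some (e x y)}.encard < {z | e x z = e x y}.encard) := by
    by_cases ho : ∃ y, Cell e p q x y ∧ e x y ∈ N.B n ∧ Op N (e x y)
    · obtain ⟨y, h1, h2, h3⟩ := ho
      exact ⟨y, h1, h2, fun h => absurd h3 h⟩
    · push Not at ho
      -- an unused label
      have h1 : ∃ y ∈ {y | Cell e p q x y ∧ e x y ∈ N.B n}, ∀ z w, a z w ≠ some (e x y) := by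
        by_contra hcon
        push Not at hcon
        refine hinf ?_
        have h2 : {y | Cell e p q x y ∧ e x y ∈ N.B n} ⊆
            ⋃ l ∈ {l | (∃ x y, a x y = some l) ∧ ¬ Op N l}, {y | e x y = l} := by
          intro y hy
          simp only [Set.mem_iUnion]
          exact ⟨e x y, ⟨hcon y hy, ho y hy.1 hy.2⟩, rfl⟩
        refine Set.Finite.subset ?_ h2
        refine Set.Finite.biUnion ((used_fin ha).subset fun l hl => hl.1) fun l hl => ?_
        exact (hDEG L N hN ℕ ℕ e e he he x x rfl l hl.2).1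
      obtain ⟨y, hy, hu⟩ := h1
      exact ⟨y, hy.1, hy.2, room hDEG hN he rfl rfl (hu x)⟩
  obtain ⟨y, h1, h2, h3⟩ := main
  obtain ⟨b, z, k1, k2, k3, _, _, _, _, k8, _⟩ :=
    add_new hDEG hRBA hN he hp hq ha h1 h3 {z | z < m} (Set.finite_lt_nat m)
  exact ⟨b, z, e x y, k1, k2, not_lt.1 k3, k8, h2⟩

end Pool.Agent.H6.CQ
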